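import Mathlib

set_option autoImplicit false

namespace Pool.Agent.Helper44K9.LS

open Finset

/-- points of a conic over `ZMod l`: at most `l + 2` -/
lemma conic (l : ℕ) [Fact l.Prime] (a b c : ZMod l) (hd : b ^ 2 - 4 * a * c ≠ 0)
    (Z : Finset (ZMod l × ZMod l)) (hZ : ∀ p ∈ Z, p.2 ^ 2 = a * p.1 ^ 2 + b * p.1 + c) :
    Z.card ≤ l + 2 := by
  classical
  rcases Z.eq_empty_or_nonempty with rfl | ⟨P, hP⟩
  · simp
  have hP' := hZ P hP
  have hinj : Set.InjOn (fun p : ZMod l × ZMod l => if p.1 = P.1 then (none : Option (ZMod l)) else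
      some ((p.2 - P.2) / (p.1 - P.1))) ((Z.erase P : Finset (ZMod l × ZMod l)) : Set (ZMod l × ZMod l)) := by
    intro p hp q hq hpq
    have hp1 := Finset.mem_erase.1 (Finset.mem_coe.1 hp)
    have hq1 := Finset.mem_erase.1 (Finset.mem_coe.1 hq)
    have hp2 := hZ p hp1.2
    have hq2 := hZ q hq1.2
    simp only at hpq
    by_cases h1 : p.1 = P.1
    · rw [if_pos h1] at hpq
      by_cases h2 : q.1 = P.1
      · have key : ∀ r : ZMod l × ZMod l, r ≠ P → r.2 ^ 2 = a * r.1 ^ 2 + b * r.1 + c → r.1 = P.1 → r.2 = - P.2 := by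
          intro r hr hr2 hr1
          have h3 : (r.2 - P.2) * (r.2 + P.2) = 0 := by
            rw [hr1] at hr2
            linear_combination hr2 - hP'
          rcases mul_eq_zero.1 h3 with h4 | h4
          · exact absurd (Prod.ext hr1 (sub_eq_zero.1 h4)) hr
          · exact eq_neg_of_add_eq_zero_left h4
        exact Prod.ext (h1.trans h2.symm) ((key p hp1.1 hp2 h1).trans (key q hq1.1 hq2 h2).symm)
      · rw [if_neg h2] at hpq
        exact absurd hpq (by simp)
    · rw [if_neg h1] at hpq
      by_cases h2 : q.1 = P.1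
      · rw [if_pos h2] at hpq
        exact absurd hpq (by simp)
      · rw [if_neg h2] at hpq
        have hm := Option.some.inj hpq
        set m := (p.2 - P.2) / (p.1 - P.1) with hmdef
        have tp : p.1 - P.1 ≠ 0 := sub_ne_zero.2 h1
        have tq : q.1 - P.1 ≠ 0 := sub_ne_zero.2 h2
        have ep : p.2 = P.2 + m * (p.1 - P.1) := by
          rw [hmdef, div_mul_cancel₀ _ tp]; ring
        have eq : q.2 = P.2 + m * (q.1 - P.1) := by
          rw [hm, div_mul_cancel₀ _ tq]; ring
        have kp : (m ^ 2 - a) * (p.1 - P.1) = 2 * a * P.1 + b - 2 * P.2 * m := by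
          have : (p.1 - P.1) * ((m ^ 2 - a) * (p.1 - P.1) - (2 * a * P.1 + b - 2 * P.2 * m)) = 0 := by
            rw [ep] at hp2
            linear_combination hp2 - hP'
          rcases mul_eq_zero.1 this with h | h
          · exact absurd h tp
          · linear_combination h
        have kq : (m ^ 2 - a) * (q.1 - P.1) = 2 * a * P.1 + b - 2 * P.2 * m := by
          have : (q.1 - P.1) * ((m ^ 2 - a) * (q.1 - P.1) - (2 * a * P.1 + b - 2 * P.2 * m)) = 0 := by
            rw [eq] at hq2
            linear_combination hq2 - hP'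
          rcases mul_eq_zero.1 this with h | h
          · exact absurd h tq
          · linear_combination h
        have hma : m ^ 2 - a ≠ 0 := by
          intro h0
          rw [h0, zero_mul] at kp
          apply hd
          have e1 : m ^ 2 = a := by linear_combination h0
          have e2 : 2 * a * P.1 + b = 2 * P.2 * m := by linear_combination -kp
          have e3 : (2 * a * P.1 + b) ^ 2 = 4 * P.2 ^ 2 * m ^ 2 := by rw [e2]; ring
          rw [e1, hP'] at e3
          linear_combination e3
        have e4 : p.1 - P.1 = q.1 - P.1 := mul_left_cancel₀ hma (kp.trans kq.symm)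
        have e5 : p.1 = q.1 := by linear_combination e4
        refine Prod.ext e5 ?_
        rw [ep, eq, e5]
  have h1 : (Z.erase P).card ≤ l + 1 := by
    have h2 := Finset.card_le_card_of_injOn (s := Z.erase P) (t := (Finset.univ : Finset (Option (ZMod l)))) _
      (fun _ _ => Finset.mem_coe.2 (Finset.mem_univ _)) hinj
    rw [Finset.card_univ, Fintype.card_option, ZMod.card] at h2
    exact h2
  have h3 := Finset.card_erase_add_one hP
  omega

/-- `G2` -/
theorem G2 (l : ℕ) [Fact l.Prime] (a b c : ZMod l) (hd : b ^ 2 - 4 * a * c ≠ 0)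
    (Y : Finset (ZMod l)) (hY : ∀ y ∈ Y, ∃ s : ZMod l, s ^ 2 = a * y ^ 2 + b * y + c) :
    2 * Y.card ≤ l + 4 := by
  classical
  have hl : l.Prime := Fact.out
  by_cases hl2 : l = 2
  · subst hl2
    have h1 := Finset.card_le_univ Y
    rw [ZMod.card] at h1
    omega
  have h2 : (2 : ZMod l) ≠ 0 := by
    intro h
    have h3 : ((2 : ℕ) : ZMod l) = 0 := by exact_mod_cast h
    rw [ZMod.natCast_eq_zero_iff] at h3
    exact hl2 ((Nat.prime_dvd_prime_iff_eq hl Nat.prime_two).1 h3)
  choose! s hs using hY
  set T1 : Finset (ZMod l × ZMod l) := Y.image fun y => (y, s y) with hT1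
  set T2 : Finset (ZMod l × ZMod l) := Y.image fun y => (y, - s y) with hT2
  have c1 : T1.card = Y.card := card_image_of_injective _ fun x y h => (Prod.ext_iff.1 h).1
  have c2 : T2.card = Y.card := card_image_of_injective _ fun x y h => (Prod.ext_iff.1 h).1
  have c3 := card_union_add_card_inter T1 T2
  have c4 : (T1 ∪ T2).card ≤ l + 2 := by
    refine conic l a b c hd _ fun p hp => ?_
    rcases mem_union.1 hp with h | h
    · obtain ⟨y, hy, rfl⟩ := mem_image.1 h
      exact hs y hy
    · obtain ⟨y, hy, rfl⟩ := mem_image.1 h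
      have := hs y hy
      simp only [neg_sq]
      exact this
  have c5 : (T1 ∩ T2).card ≤ 2 := by
    by_contra h5
    have h6 : 2 < (T1 ∩ T2).card := by omega
    have key : ∀ p ∈ T1 ∩ T2, p.2 = 0 ∧ a * p.1 ^ 2 + b * p.1 + c = 0 := by
      intro p hp
      obtain ⟨y, hy, rfl⟩ := mem_image.1 (mem_inter.1 hp).1
      obtain ⟨z, hz, hzy⟩ := mem_image.1 (mem_inter.1 hp).2
      have e1 := (Prod.ext_iff.1 hzy).1
      have e2 := (Prod.ext_iff.1 hzy).2
      simp only at e1 e2
      rw [e1] at e2
      have e3 : (2 : ZMod l) * s y = 0 := by linear_combination -e2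
      have e4 : s y = 0 := (mul_eq_zero.1 e3).resolve_left h2
      refine ⟨e4, ?_⟩
      have := hs y hy
      rw [e4] at this
      simp only
      linear_combination -this
    obtain ⟨p, hp, q, hq, r, hr, hpq, hpr, hqr⟩ := Finset.two_lt_card.1 h6
    obtain ⟨p0, p1⟩ := key p hp
    obtain ⟨q0, q1⟩ := key q hq
    obtain ⟨r0, r1⟩ := key r hr
    have npq : p.1 - q.1 ≠ 0 := fun h => hpq (Prod.ext (sub_eq_zero.1 h) (p0.trans q0.symm))
    have npr : p.1 - r.1 ≠ 0 := fun h => hpr (Prod.ext (sub_eq_zero.1 h) (p0.trans r0.symm))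
    have nqr : q.1 - r.1 ≠ 0 := fun h => hqr (Prod.ext (sub_eq_zero.1 h) (q0.trans r0.symm))
    have e1 : a * (p.1 + q.1) + b = 0 := by
      have : (p.1 - q.1) * (a * (p.1 + q.1) + b) = 0 := by linear_combination p1 - q1
      exact (mul_eq_zero.1 this).resolve_left npq
    have e2 : a * (p.1 + r.1) + b = 0 := by
      have : (p.1 - r.1) * (a * (p.1 + r.1) + b) = 0 := by linear_combination p1 - r1
      exact (mul_eq_zero.1 this).resolve_left npr
    have e3 : a = 0 := by
      have : a * (q.1 - r.1) = 0 := by linear_combination e1 - e2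
      exact (mul_eq_zero.1 this).resolve_right nqr
    have e4 : b = 0 := by rw [e3] at e1; linear_combination e1
    exact hd (by rw [e3, e4]; ring)
  omega

end Pool.Agent.Helper44K9.LS
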