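import Pool.Agent.Helper44K9.LS.G3

set_option autoImplicit false

namespace Pool.Agent.Helper44K9.LS

open Finset

/-- `G3b` -/
theorem G3b (K : ℕ) : ∃ B₀ : ℕ, ∀ B : ℕ, B₀ ≤ B → ∀ m : ℕ, m ≠ 0 → (m : ℝ) ≤ (B : ℝ) ^ K →
    ∃ S : Finset ℕ, (∀ l ∈ S, l.Prime ∧ ¬ l ∣ m ∧ (l : ℝ) ≤ (B : ℝ) ^ (3 / 4 : ℝ)) ∧
      Real.log (2 * (B : ℝ)) + 1 ≤ ∑ l ∈ S, Real.log (l : ℝ) / (5 / 8 * (l : ℝ) + 4) := by
  obtain ⟨C, hC⟩ := Pool.Agent.Erdos456.Mert.mertens_log
  have hC0 : 0 ≤ C := (abs_nonneg _).trans (hC 1 le_rfl)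
  set D : ℝ := 65 + 2 * C + K with hD
  set T : ℝ := 55 * ((16 / 11) * (3 + D) + 2) with hT
  have hK0 : (0 : ℝ) ≤ K := Nat.cast_nonneg K
  have hT0 : 0 < T := by rw [hT, hD]; positivity
  refine ⟨⌈Real.exp T⌉₊, fun B hB m hm0 hm => ?_⟩
  have hBT : Real.exp T ≤ (B : ℝ) := (Nat.le_ceil _).trans (by exact_mod_cast hB)
  have hB1 : (1 : ℝ) < B := lt_of_lt_of_le (Real.one_lt_exp_iff.2 hT0) hBT
  have hB0 : (0 : ℝ) < B := by linarith
  set t := Real.log B with ht
  have htT : T ≤ t := (Real.le_log_iff_exp_le hB0).2 hBT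
  have ht0 : 0 < t := by linarith
  set N := ⌊(B : ℝ) ^ (3 / 4 : ℝ)⌋₊ with hN
  have hx1 : 1 ≤ (B : ℝ) ^ (3 / 4 : ℝ) := Real.one_le_rpow hB1.le (by norm_num)
  have hN1 : 1 ≤ N := Nat.le_floor (by exact_mod_cast hx1)
  have hN1' : (1 : ℝ) ≤ N := by exact_mod_cast hN1
  have hNx : (N : ℝ) ≤ (B : ℝ) ^ (3 / 4 : ℝ) := Nat.floor_le (by linarith)
  have hNx2 : (B : ℝ) ^ (3 / 4 : ℝ) ≤ 2 * N := by
    have := Nat.lt_floor_add_one ((B : ℝ) ^ (3 / 4 : ℝ))
    linarith
  have hlogN : (3 / 4) * t - 1 ≤ Real.log N := by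
    have h1 : Real.log ((B : ℝ) ^ (3 / 4 : ℝ)) ≤ Real.log (2 * N) := Real.log_le_log (by linarith) hNx2
    rw [Real.log_rpow hB0, Real.log_mul (by norm_num) (by positivity)] at h1
    have := Real.log_two_lt_d9
    linarith
  set Z := ⌊t⌋₊ + 1 with hZ
  have hZt : t ≤ Z := by
    have := (Nat.lt_floor_add_one t).le
    rw [hZ]; push_cast; exact this
  have hZt' : (Z : ℝ) ≤ t + 1 := by
    have := Nat.floor_le ht0.le
    rw [hZ]; push_cast; linarith
  have hZ1 : 1 ≤ Z := by omega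
  have hZ0 : (0 : ℝ) < Z := by exact_mod_cast hZ1
  have hlogZ : Real.log Z ≤ t / 20 + 3 := (Real.log_le_log hZ0 hZt').trans (log_le20 t ht0.le)
  have M1 := abs_le.1 (hC N hN1)
  have M2 := abs_le.1 (hC Z hZ1)
  set P := (Finset.Icc 1 N).filter Nat.Prime with hP
  have hlog0 : ∀ l ∈ P, 0 ≤ Real.log (l : ℝ) := fun l hl => by
    rw [hP, mem_filter, mem_Icc] at hl
    exact Real.log_nonneg (by exact_mod_cast hl.1.1)
  have hPprime : ∀ l ∈ P, l.Prime := fun l hl => (mem_filter.1 hl).2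
  have hl0 : ∀ l ∈ P, (0 : ℝ) < l := fun l hl => by exact_mod_cast (hPprime l hl).pos
  -- the small primes
  have hsmall : ∑ l ∈ P.filter (fun l => l < 64), Real.log (l : ℝ) / l ≤ 64 := by
    have h1 : ∀ l ∈ P.filter (fun l => l < 64), Real.log (l : ℝ) / l ≤ 1 := fun l hl => by
      have h2 := hl0 l (mem_of_mem_filter l hl)
      rw [div_le_one h2]
      have := Real.log_le_sub_one_of_pos h2
      linarith
    have h2 := Finset.sum_le_card_nsmul _ _ _ h1
    have h3 : (P.filter (fun l => l < 64)).card ≤ 64 := by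
      have : P.filter (fun l => l < 64) ⊆ Finset.range 64 := fun l hl => Finset.mem_range.2 (mem_filter.1 hl).2
      have := card_le_card this
      rwa [card_range] at this
    have h4 : ((P.filter (fun l => l < 64)).card : ℝ) ≤ 64 := by exact_mod_cast h3
    rw [nsmul_eq_mul, mul_one] at h2
    exact h2.trans h4
  -- the primes dividing `m`
  have hlogm : Real.log m ≤ K * t := by
    have h1 : Real.log m ≤ Real.log ((B : ℝ) ^ K) := Real.log_le_log (by exact_mod_cast Nat.pos_of_ne_zero hm0) hm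
    rwa [Real.log_pow] at h1
  have hdiv : ∑ l ∈ P.filter (fun l => l ∣ m), Real.log (l : ℝ) / l ≤ Real.log Z + C + K := by
    have h1 : ∀ l ∈ P.filter (fun l => l ∣ m), Real.log (l : ℝ) / l ≤
        (if l ≤ Z then Real.log (l : ℝ) / l else 0) + Real.log (l : ℝ) / Z := fun l hl => by
      have hlP := mem_of_mem_filter l hl
      have h2 := hlog0 l hlP
      have h3 := hl0 l hlP
      by_cases hlZ : l ≤ Z
      · rw [if_pos hlZ]
        have : 0 ≤ Real.log (l : ℝ) / Z := by positivity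
        linarith
      · rw [if_neg hlZ, zero_add]
        have : (Z : ℝ) ≤ l := by exact_mod_cast (not_le.1 hlZ).le
        gcongr
    have h2 := sum_le_sum h1
    rw [sum_add_distrib, ← sum_div] at h2
    have h3 : ∑ l ∈ P.filter (fun l => l ∣ m), (if l ≤ Z then Real.log (l : ℝ) / l else 0) ≤
        ∑ l ∈ (Finset.Icc 1 Z).filter Nat.Prime, Real.log (l : ℝ) / l := by
      rw [← sum_filter]
      refine sum_le_sum_of_subset_of_nonneg ?_ ?_
      · intro l hl
        rw [mem_filter, mem_filter] at hl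
        have hlP := hl.1.1
        rw [hP, mem_filter, mem_Icc] at hlP
        rw [mem_filter, mem_Icc]
        exact ⟨⟨hlP.1.1, hl.2⟩, hlP.2⟩
      · intro l hl _
        have h5 := (mem_filter.1 hl).2.one_le
        have h6 : 0 ≤ Real.log (l : ℝ) := Real.log_nonneg (by exact_mod_cast h5)
        positivity
    have h4 := log_dvd P hPprime m hm0
    have h5 : (∑ l ∈ P.filter (fun l => l ∣ m), Real.log (l : ℝ)) / Z ≤ K := by
      rw [div_le_iff₀ hZ0]
      calc _ ≤ Real.log m := h4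
        _ ≤ K * t := hlogm
        _ ≤ K * Z := by gcongr
    linarith
  refine ⟨P.filter (fun l => ¬ l ∣ m ∧ 64 ≤ l), ?_, ?_⟩
  · intro l hl
    rw [mem_filter] at hl
    refine ⟨hPprime l hl.1, hl.2.1, ?_⟩
    have h1 := hl.1
    rw [hP, mem_filter, mem_Icc] at h1
    have : (l : ℝ) ≤ N := by exact_mod_cast h1.1.2
    linarith
  · have hS1 : (16 / 11) * ∑ l ∈ P.filter (fun l => ¬ l ∣ m ∧ 64 ≤ l), Real.log (l : ℝ) / l ≤
        ∑ l ∈ P.filter (fun l => ¬ l ∣ m ∧ 64 ≤ l), Real.log (l : ℝ) / (5 / 8 * (l : ℝ) + 4) := by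
      rw [mul_sum]
      refine sum_le_sum fun l hl => ?_
      have hlP := mem_of_mem_filter l hl
      have h2 := hlog0 l hlP
      have h3 := hl0 l hlP
      have h4 : (64 : ℝ) ≤ l := by exact_mod_cast (mem_filter.1 hl).2.2
      have h5 : (16 / 11) * (Real.log (l : ℝ) / l) = Real.log (l : ℝ) / ((11 / 16) * l) := by
        field_simp
      rw [h5]
      gcongr
      linarith
    have hS2 : ∑ l ∈ P, Real.log (l : ℝ) / l ≤
        ∑ l ∈ P.filter (fun l => ¬ l ∣ m ∧ 64 ≤ l), Real.log (l : ℝ) / l +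
        ∑ l ∈ P.filter (fun l => l ∣ m), Real.log (l : ℝ) / l + ∑ l ∈ P.filter (fun l => l < 64), Real.log (l : ℝ) / l := by
      rw [sum_filter (s := P) (fun l => ¬ l ∣ m ∧ 64 ≤ l), sum_filter (s := P) (fun l => l ∣ m),
        sum_filter (s := P) (fun l => l < 64), ← sum_add_distrib, ← sum_add_distrib]
      refine sum_le_sum fun l hl => ?_
      have h2 := hlog0 l hl
      have h3 := hl0 l hl
      have h4 : 0 ≤ Real.log (l : ℝ) / l := by positivity
      by_cases h5 : l ∣ m <;> by_cases h6 : l < 64 <;> simp [h5, h6, not_le.2, not_lt.1] <;> try linarith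
    have hlog2 : Real.log (2 * (B : ℝ)) = Real.log 2 + t := Real.log_mul (by norm_num) hB0.ne'
    rw [hlog2]
    have := Real.log_two_lt_d9
    have hfin : (16 / 11) * ((3 / 4) * t - 1 - C - (t / 20 + 3 + C + K) - 64) ≤
        (16 / 11) * ∑ l ∈ P.filter (fun l => ¬ l ∣ m ∧ 64 ≤ l), Real.log (l : ℝ) / l := by
      refine mul_le_mul_of_nonneg_left ?_ (by norm_num)
      linarith [M1.1]
    have hTt : 55 * ((16 / 11) * (3 + (65 + 2 * C + K)) + 2) ≤ t := by rw [← hD, ← hT]; exact htT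
    linarith

end Pool.Agent.Helper44K9.LS
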