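import Mathlib

set_option autoImplicit false

namespace Pool.Agent.Helper44K9.LS

open Finset

lemma log_dvd (S : Finset ℕ) (hS : ∀ l ∈ S, l.Prime) (n : ℕ) (hn : n ≠ 0) :
    ∑ l ∈ S.filter (fun l => l ∣ n), Real.log (l : ℝ) ≤ Real.log n := by
  have h1 : (∏ l ∈ S.filter (fun l => l ∣ n), l) ∣ n :=
    Finset.prod_primes_dvd n (fun l hl => (hS l (mem_of_mem_filter l hl)).prime) (fun l hl => (mem_filter.1 hl).2)
  have h2 := Nat.le_of_dvd (Nat.pos_of_ne_zero hn) h1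
  rw [← Real.log_prod]
  · refine Real.log_le_log ?_ ?_
    · refine Finset.prod_pos fun l hl => ?_
      have := (hS l (mem_of_mem_filter l hl)).pos
      exact_mod_cast this
    · rw [← Nat.cast_prod]
      exact_mod_cast h2
  · intro l hl
    have := (hS l (mem_of_mem_filter l hl)).ne_zero
    exact_mod_cast this

lemma cs (Y : Finset ℤ) (l : ℕ) (v : ℝ) (hv : 0 < v)
    (h : (((Y.image fun y : ℤ => (y : ZMod l)).card : ℕ) : ℝ) ≤ v) :
    (Y.card : ℝ) ^ 2 / v ≤ (((Y ×ˢ Y).filter fun p => ((p.1 : ℤ) : ZMod l) = ((p.2 : ℤ) : ZMod l)).card : ℝ) := by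
  classical
  have h1 : (Y.card : ℝ) = ∑ c ∈ Y.image (fun y : ℤ => (y : ZMod l)), ((Y.filter fun y : ℤ => (y : ZMod l) = c).card : ℝ) := by
    exact_mod_cast Finset.card_eq_sum_card_image (fun y : ℤ => (y : ZMod l)) Y
  have h2 : (((Y ×ˢ Y).filter fun p => ((p.1 : ℤ) : ZMod l) = ((p.2 : ℤ) : ZMod l)).card : ℝ) =
      ∑ c ∈ Y.image (fun y : ℤ => (y : ZMod l)), ((Y.filter fun y : ℤ => (y : ZMod l) = c).card : ℝ) ^ 2 := by
    have h3 := Finset.card_eq_sum_card_fiberwise (s := (Y ×ˢ Y).filter fun p => ((p.1 : ℤ) : ZMod l) = ((p.2 : ℤ) : ZMod l))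
      (t := Y.image (fun y : ℤ => (y : ZMod l))) (f := fun p => ((p.1 : ℤ) : ZMod l)) (by
      intro p hp
      have hp' := Finset.mem_filter.1 (Finset.mem_coe.1 hp)
      exact Finset.mem_coe.2 (mem_image_of_mem _ (mem_product.1 hp'.1).1))
    rw [h3]
    push_cast
    refine sum_congr rfl fun c hc => ?_
    rw [sq, ← Nat.cast_mul, ← card_product]
    congr 2
    ext p
    simp only [mem_filter, mem_product]
    constructor
    · rintro ⟨⟨⟨h1, h2⟩, h3⟩, h4⟩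
      exact ⟨⟨h1, h4⟩, h2, h3 ▸ h4⟩
    · rintro ⟨⟨h1, h4⟩, h2, h3⟩
      exact ⟨⟨⟨h1, h2⟩, h4.trans h3.symm⟩, h4⟩
  have h3 := sq_sum_le_card_mul_sum_sq (s := Y.image (fun y : ℤ => (y : ZMod l)))
    (f := fun c => ((Y.filter fun y : ℤ => (y : ZMod l) = c).card : ℝ))
  rw [← h1, ← h2] at h3
  rw [div_le_iff₀ hv]
  calc (Y.card : ℝ) ^ 2 ≤ _ := h3
    _ ≤ v * _ := by gcongr
    _ = _ := mul_comm _ _

/-- Gallagher's larger sieve -/
theorem G1 (Y : Finset ℤ) (B : ℕ) (hB : 1 ≤ B) (hY : ∀ y ∈ Y, |y| ≤ (B : ℤ)) (S : Finset ℕ)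
    (hS : ∀ l ∈ S, l.Prime) (ν : ℕ → ℝ) (hν0 : ∀ l ∈ S, 0 < ν l)
    (hν : ∀ l ∈ S, (((Y.image fun y : ℤ => (y : ZMod l)).card : ℕ) : ℝ) ≤ ν l) :
    (Y.card : ℝ) * (∑ l ∈ S, Real.log (l : ℝ) / ν l - Real.log (2 * (B : ℝ))) ≤
      ∑ l ∈ S, Real.log (l : ℝ) := by
  classical
  have hlog : ∀ l ∈ S, 0 ≤ Real.log (l : ℝ) := fun l hl =>
    Real.log_nonneg (by exact_mod_cast (hS l hl).one_le)
  have hL0 : 0 ≤ Real.log (2 * (B : ℝ)) := by
    refine Real.log_nonneg ?_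
    have : (1 : ℝ) ≤ B := by exact_mod_cast hB
    linarith
  have hsum0 : 0 ≤ ∑ l ∈ S, Real.log (l : ℝ) := sum_nonneg hlog
  rcases Nat.eq_zero_or_pos Y.card with hY0 | hYpos
  · rw [hY0]; simpa using hsum0
  have hYr : (0 : ℝ) < Y.card := by exact_mod_cast hYpos
  -- first inequality
  have hA : (Y.card : ℝ) ^ 2 * ∑ l ∈ S, Real.log (l : ℝ) / ν l ≤
      ∑ l ∈ S, Real.log (l : ℝ) *
        (((Y ×ˢ Y).filter fun p => ((p.1 : ℤ) : ZMod l) = ((p.2 : ℤ) : ZMod l)).card : ℝ) := by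
    rw [mul_sum]
    refine sum_le_sum fun l hl => ?_
    calc (Y.card : ℝ) ^ 2 * (Real.log (l : ℝ) / ν l) = Real.log (l : ℝ) * ((Y.card : ℝ) ^ 2 / ν l) := by ring
      _ ≤ _ := mul_le_mul_of_nonneg_left (cs Y l (ν l) (hν0 l hl) (hν l hl)) (hlog l hl)
  have hB' : ∑ l ∈ S, Real.log (l : ℝ) *
        (((Y ×ˢ Y).filter fun p => ((p.1 : ℤ) : ZMod l) = ((p.2 : ℤ) : ZMod l)).card : ℝ) =
      ∑ p ∈ Y ×ˢ Y, ∑ l ∈ S.filter (fun l => ((p.1 : ℤ) : ZMod l) = ((p.2 : ℤ) : ZMod l)), Real.log (l : ℝ) := by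
    have e1 : ∀ l ∈ S, Real.log (l : ℝ) *
        (((Y ×ˢ Y).filter fun p => ((p.1 : ℤ) : ZMod l) = ((p.2 : ℤ) : ZMod l)).card : ℝ) =
        ∑ p ∈ Y ×ˢ Y, if ((p.1 : ℤ) : ZMod l) = ((p.2 : ℤ) : ZMod l) then Real.log (l : ℝ) else 0 := by
      intro l hl
      rw [← sum_filter, sum_const, nsmul_eq_mul, mul_comm]
    rw [sum_congr rfl e1, sum_comm]
    refine sum_congr rfl fun p hp => ?_
    rw [sum_filter]
  have hC : ∀ p ∈ Y ×ˢ Y,
      ∑ l ∈ S.filter (fun l => ((p.1 : ℤ) : ZMod l) = ((p.2 : ℤ) : ZMod l)), Real.log (l : ℝ) ≤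
      (if p.1 = p.2 then ∑ l ∈ S, Real.log (l : ℝ) else 0) + Real.log (2 * (B : ℝ)) := by
    intro p hp
    have hp' := mem_product.1 hp
    by_cases hpp : p.1 = p.2
    · rw [if_pos hpp]
      have : ∑ l ∈ S.filter (fun l => ((p.1 : ℤ) : ZMod l) = ((p.2 : ℤ) : ZMod l)), Real.log (l : ℝ) ≤
          ∑ l ∈ S, Real.log (l : ℝ) :=
        sum_le_sum_of_subset_of_nonneg (filter_subset _ _) fun l hl _ => hlog l hl
      linarith
    · rw [if_neg hpp, zero_add]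
      have hn : (p.1 - p.2).natAbs ≠ 0 := by
        rw [Ne, Int.natAbs_eq_zero]; omega
      have h1 := log_dvd S hS (p.1 - p.2).natAbs hn
      have h2 : S.filter (fun l => ((p.1 : ℤ) : ZMod l) = ((p.2 : ℤ) : ZMod l)) =
          S.filter (fun l => l ∣ (p.1 - p.2).natAbs) := by
        refine filter_congr fun l hl => ?_
        rw [← Int.natCast_dvd, ← ZMod.intCast_zmod_eq_zero_iff_dvd _ l, Int.cast_sub, sub_eq_zero]
      rw [h2]
      refine h1.trans (Real.log_le_log (by exact_mod_cast Nat.pos_of_ne_zero hn) ?_)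
      have h3 : ((p.1 - p.2).natAbs : ℤ) ≤ 2 * B := by
        have a1 := hY _ hp'.1
        have a2 := hY _ hp'.2
        rw [Int.natCast_natAbs]
        have := abs_sub p.1 p.2
        omega
      exact_mod_cast h3
  have hD : ∑ p ∈ Y ×ˢ Y, ((if p.1 = p.2 then ∑ l ∈ S, Real.log (l : ℝ) else 0) + Real.log (2 * (B : ℝ))) =
      (Y.card : ℝ) * ∑ l ∈ S, Real.log (l : ℝ) + (Y.card : ℝ) ^ 2 * Real.log (2 * (B : ℝ)) := by
    rw [sum_add_distrib]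
    congr 1
    · rw [sum_product]
      have : ∀ x ∈ Y, ∑ y ∈ Y, (if x = y then ∑ l ∈ S, Real.log (l : ℝ) else 0) = ∑ l ∈ S, Real.log (l : ℝ) := by
        intro x hx
        rw [sum_ite_eq, if_pos hx]
      rw [sum_congr rfl this, sum_const, nsmul_eq_mul]
    · rw [sum_const, nsmul_eq_mul, card_product]
      push_cast
      ring
  have hE : (Y.card : ℝ) ^ 2 * ∑ l ∈ S, Real.log (l : ℝ) / ν l ≤
      (Y.card : ℝ) * ∑ l ∈ S, Real.log (l : ℝ) + (Y.card : ℝ) ^ 2 * Real.log (2 * (B : ℝ)) := by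
    rw [← hD]
    exact hA.trans (hB'.le.trans (sum_le_sum hC))
  have hF : (Y.card : ℝ) * ((Y.card : ℝ) * (∑ l ∈ S, Real.log (l : ℝ) / ν l - Real.log (2 * (B : ℝ)))) ≤
      (Y.card : ℝ) * ∑ l ∈ S, Real.log (l : ℝ) := by nlinarith
  exact le_of_mul_le_mul_left hF hYr

end Pool.Agent.Helper44K9.LS
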