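import Mathlib

set_option autoImplicit false

namespace Pool.Agent.Helper44K9.LS

open Finset Polynomial

lemma split {K : Type} [CommRing K] (p : ℕ) (a : ℕ → K[X]) (j₀ : ℕ) (h : ∀ j < j₀, a j = 0) (J : ℕ) (hJ : j₀ + 1 ≤ J) :
    ∃ U : K[X], ∑ j ∈ Finset.range J, a j * X ^ (j * p) = X ^ (j₀ * p) * (a j₀ + X ^ p * U) := by
  induction J, hJ using Nat.le_induction with
  | base =>
    refine ⟨0, ?_⟩
    rw [Finset.sum_range_succ, Finset.sum_eq_zero (fun j hj => by rw [h j (Finset.mem_range.1 hj), zero_mul])]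
    ring
  | succ J hJ ih =>
    obtain ⟨U, hU⟩ := ih
    refine ⟨U + a J * X ^ ((J - (j₀ + 1)) * p), ?_⟩
    rw [Finset.sum_range_succ, hU]
    have e : J * p = j₀ * p + p + (J - (j₀ + 1)) * p := by
      obtain ⟨k, rfl⟩ := Nat.exists_eq_add_of_le hJ
      rw [Nat.add_sub_cancel_left]
      ring
    rw [e, pow_add, pow_add]
    ring

lemma nd_lt {K : Type} [Field K] {q : K[X]} {A : ℕ} (hA : 0 < A) (h : q.degree < A) : q.natDegree < A := by
  rcases eq_or_ne q 0 with rfl | h0
  · rw [natDegree_zero]; exact hA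
  · exact (natDegree_lt_iff_degree_lt h0).2 h

/-- a squarefree polynomial of positive degree is not a constant times the square of a fraction -/
lemma not_square {K : Type} [Field K] {f r s : K[X]} (hf : Squarefree f) (hd : 1 ≤ f.natDegree) {c : K} (hc : c ≠ 0)
    (h : f * r ^ 2 = C c * s ^ 2) : r = 0 := by
  by_contra hr
  have hf0 : f ≠ 0 := hf.ne_zero
  have hs : s ≠ 0 := by
    rintro rfl
    have : f * r ^ 2 = 0 := by rw [h]; ring
    rcases mul_eq_zero.1 this with h1 | h1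
    · exact hf0 h1
    · exact hr (pow_eq_zero_iff (two_ne_zero) |>.1 h1)
  have hfu : ¬ IsUnit f := by
    intro hu
    have := natDegree_eq_zero_of_isUnit hu
    omega
  obtain ⟨q, hq, hqf⟩ := WfDvdMonoid.exists_irreducible_factor hfu hf0
  have hqp : Prime q := hq.prime
  have hfin : ∀ a : K[X], a ≠ 0 → FiniteMultiplicity q a := fun a ha =>
    FiniteMultiplicity.of_not_isUnit hq.not_isUnit ha
  have hvf : emultiplicity q f = 1 := by
    apply le_antisymm
    · rcases (squarefree_iff_emultiplicity_le_one f).1 hf q with h1 | h1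
      · exact h1
      · exact absurd h1 hq.not_isUnit
    · have := le_emultiplicity_of_pow_dvd (a := q) (b := f) (k := 1) (by rwa [pow_one])
      exact_mod_cast this
  have hvc : emultiplicity q (C c) = 0 := by
    apply emultiplicity_eq_zero.2
    intro hdvd
    exact hq.not_isUnit (isUnit_of_dvd_unit hdvd (isUnit_C.2 (isUnit_iff_ne_zero.2 hc)))
  have h1 : emultiplicity q (f * r ^ 2) = emultiplicity q (C c * s ^ 2) := by rw [h]
  rw [emultiplicity_mul hqp, emultiplicity_mul hqp, emultiplicity_pow hqp, emultiplicity_pow hqp, hvf, hvc,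
    (hfin r hr).emultiplicity_eq_multiplicity, (hfin s hs).emultiplicity_eq_multiplicity] at h1
  have h2 : 1 + 2 * multiplicity q r = 0 + 2 * multiplicity q s := by exact_mod_cast h1
  omega

theorem S1 {p : ℕ} [Fact p.Prime] (hp : p ≠ 2) {f : (ZMod p)[X]} (hf : Squarefree f)
    (hd : 1 ≤ f.natDegree) (h0 : f.eval 0 ≠ 0) {J A : ℕ} (hA : f.natDegree + 2 * A ≤ p + 1)
    (r s : ℕ → (ZMod p)[X]) (hr : ∀ j, (r j).degree < A) (hs : ∀ j, (s j).degree < A)
    (hR : ∑ j ∈ Finset.range J, (r j + s j * f ^ ((p - 1) / 2)) * X ^ (j * p) = 0) :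
    ∀ j < J, r j = 0 ∧ s j = 0 := by
  classical
  have hpp : p.Prime := Fact.out
  have hodd : (p - 1) / 2 * 2 = p - 1 := by
    have := hpp.eq_two_or_odd
    omega
  by_contra hcon
  push Not at hcon
  have H : ∃ j, j < J ∧ ¬ (r j = 0 ∧ s j = 0) := by
    obtain ⟨j, hj, h⟩ := hcon
    exact ⟨j, hj, fun h' => h h'.1 h'.2⟩
  set j₀ := Nat.find H with hj₀
  obtain ⟨hj1, hj2⟩ := Nat.find_spec H
  rw [← hj₀] at hj1 hj2
  have hmin : ∀ j < j₀, r j = 0 ∧ s j = 0 := by
    intro j hj
    have := Nat.find_min H hj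
    by_contra h
    exact this ⟨hj.trans hj1, h⟩
  obtain ⟨U, hU⟩ := split p r j₀ (fun j hj => (hmin j hj).1) J hj1
  obtain ⟨V, hV⟩ := split p s j₀ (fun j hj => (hmin j hj).2) J hj1
  set g := f ^ ((p - 1) / 2) with hg
  have hg2 : f * g ^ 2 = f ^ p := by
    rw [hg, ← pow_mul, hodd, ← pow_succ']
    congr 1
    have := hpp.one_le
    omega
  have hRS : ∑ j ∈ Finset.range J, r j * X ^ (j * p) + g * ∑ j ∈ Finset.range J, s j * X ^ (j * p) = 0 := by
    rw [← hR, Finset.mul_sum, ← Finset.sum_add_distrib]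
    refine Finset.sum_congr rfl fun j _ => ?_
    ring
  rw [hU, hV] at hRS
  have hX : (X : (ZMod p)[X]) ^ (j₀ * p) ≠ 0 := pow_ne_zero _ X_ne_zero
  have h1 : (r j₀ + X ^ p * U) + g * (s j₀ + X ^ p * V) = 0 := by
    have : X ^ (j₀ * p) * ((r j₀ + X ^ p * U) + g * (s j₀ + X ^ p * V)) = 0 := by
      rw [← hRS]; ring
    exact (mul_eq_zero.1 this).resolve_left hX
  have h2 : f * (r j₀ + X ^ p * U) ^ 2 = f ^ p * (s j₀ + X ^ p * V) ^ 2 := by
    have h3 : r j₀ + X ^ p * U = - (g * (s j₀ + X ^ p * V)) := eq_neg_of_add_eq_zero_left h1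
    rw [h3, ← hg2]
    ring
  -- the value at zero
  set c := f.coeff 0 with hc
  have hc0 : c ≠ 0 := by rw [hc, coeff_zero_eq_eval_zero]; exact h0
  obtain ⟨W, hW⟩ : (X : (ZMod p)[X]) ^ p ∣ f ^ p - C c := by
    have h3 : (X : (ZMod p)[X]) ∣ f - C (f.coeff 0) := X_dvd_sub_C
    obtain ⟨w, hw⟩ := h3
    refine ⟨expand (ZMod p) p w, ?_⟩
    have h4 := congrArg (expand (ZMod p) p) hw
    rw [map_sub, map_mul, expand_C, expand_X, ZMod.expand_card] at h4
    exact h4
  have hdiv : (X : (ZMod p)[X]) ^ p ∣ f * (r j₀) ^ 2 - C c * (s j₀) ^ 2 := by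
    refine ⟨W * (s j₀ + X ^ p * V) ^ 2 + C c * (2 * s j₀ * V + X ^ p * V ^ 2) - f * (2 * r j₀ * U + X ^ p * U ^ 2), ?_⟩
    have h5 : f ^ p = C c + X ^ p * W := by rw [← hW]; ring
    rw [h5] at h2
    linear_combination h2
  have hdeg : (f * (r j₀) ^ 2 - C c * (s j₀) ^ 2).degree < ((X : (ZMod p)[X]) ^ p).degree := by
    rw [degree_X_pow]
    have hf1 : f.degree = f.natDegree := degree_eq_natDegree hf.ne_zero
    rcases Nat.eq_zero_or_pos A with rfl | hA0
    · have hr0 : r j₀ = 0 := by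
        have := hr j₀
        rw [Nat.cast_zero] at this
        exact degree_eq_bot.1 (Nat.WithBot.lt_zero_iff.1 this)
      have hs0 : s j₀ = 0 := by
        have := hs j₀
        rw [Nat.cast_zero] at this
        exact degree_eq_bot.1 (Nat.WithBot.lt_zero_iff.1 this)
      rw [hr0, hs0]
      simp only [ne_eq, OfNat.ofNat_ne_zero, not_false_eq_true, zero_pow, mul_zero, sub_zero, degree_zero]
      exact WithBot.bot_lt_coe _
    · have hrn : (r j₀).natDegree ≤ A - 1 := by
        have := nd_lt hA0 (hr j₀)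
        omega
      have hsn : (s j₀).natDegree ≤ A - 1 := by
        have := nd_lt hA0 (hs j₀)
        omega
      have hn : (f * (r j₀) ^ 2 - C c * (s j₀) ^ 2).natDegree < p := by
        refine lt_of_le_of_lt (natDegree_sub_le _ _) (max_lt ?_ ?_)
        · refine lt_of_le_of_lt (natDegree_mul_le.trans (Nat.add_le_add_left (natDegree_pow_le) _)) ?_
          have := hpp.one_le
          omega
        · refine lt_of_le_of_lt ((natDegree_C_mul_le _ _).trans natDegree_pow_le) ?_
          have := hpp.two_le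
          omega
      exact lt_of_le_of_lt degree_le_natDegree (by exact_mod_cast hn)
  have hzero := eq_zero_of_dvd_of_degree_lt hdiv hdeg
  have heq : f * (r j₀) ^ 2 = C c * (s j₀) ^ 2 := sub_eq_zero.1 hzero
  have hr0 := not_square hf hd hc0 heq
  refine hj2 ⟨hr0, ?_⟩
  rw [hr0] at heq
  have h6 : C c * (s j₀) ^ 2 = 0 := by rw [← heq]; ring
  rcases mul_eq_zero.1 h6 with h7 | h7
  · exact absurd (C_eq_zero.1 h7) hc0
  · exact pow_eq_zero_iff two_ne_zero |>.1 h7

end Pool.Agent.Helper44K9.LS
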